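import Mathlib
import Pool.Agent.P8H27.RF.SepDefs

/-!
# Weil numbers with uncorrelated slopes: definitions
-/

set_option autoImplicit false

namespace Pool.Agent.P8H27.UC

open Polynomial Module TensorProduct Pool.Agent.P8H27.RF

section numbers

variable {Ω : Type} [Field Ω] [CharZero Ω]

/-- `α` is a Weil number of weight `u` for `q = p ^ m`: it is integral up to powers of `p`, like its
inverse, and all its complex conjugates have absolute value `q ^ (u / 2)`. -/
structure IsWeilNumber (p m : ℕ) (u : ℤ) (α : Ω) : Prop where
  int : ∃ n : ℕ, IsIntegral ℤ ((p : Ω) ^ n * α)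
  int_inv : ∃ n : ℕ, IsIntegral ℤ ((p : Ω) ^ n * α⁻¹)
  abs : ∀ z : ℂ, aeval z (minpoly ℚ α) = 0 → ‖z‖ ^ 2 = ((p : ℝ) ^ m) ^ u

/-- The field generated by `α` and `β`. -/
abbrev pairField (α β : Ω) : IntermediateField ℚ Ω := IntermediateField.adjoin ℚ {α, β}

/-- `α` as an element of the field generated by `α` and `β`. -/
def fstElt (α β : Ω) : pairField α β :=
  ⟨α, IntermediateField.subset_adjoin ℚ _ (Set.mem_insert α {β})⟩

/-- `β` as an element of the field generated by `α` and `β`. -/
def sndElt (α β : Ω) : pairField α β :=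
  ⟨β, IntermediateField.subset_adjoin ℚ _ (Set.mem_insert_of_mem α (Set.mem_singleton β))⟩

/-- The correlation of the slopes of the Weil numbers `α`, of weight `u`, and `β`, of weight `w`: the
sum, over all embeddings `τ` of the field generated by `α` and `β` in an algebraic closure of `ℚ_p`, of
the products of the deviations of the slopes of `τ α` and `τ β` from their mean values `u / 2` and `w / 2`
(times four). -/
noncomputable def correlation (p m : ℕ) [Fact p.Prime] (u w : ℤ) (α β : Ω) : ℝ :=
  ∑ᶠ τ : pairField α β →+* PadicAlgCl p,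
    (2 * val p m (τ (fstElt α β)) - u) * (2 * val p m (τ (sndElt α β)) - w)

/-- The slopes of `α` and `β` are uncorrelated. -/
def Uncorrelated (p m : ℕ) [Fact p.Prime] (u w : ℤ) (α β : Ω) : Prop :=
  correlation p m u w α β = 0

/-- The number `μ` is a product of numbers in `R` (each given with a weight), and `u` is the sum of the
weights. -/
def IsProductOf (R : Set (Ω × ℤ)) (u : ℤ) (μ : Ω) : Prop :=
  ∃ (n : ℕ) (a : Fin n → Ω × ℤ), (∀ k, a k ∈ R) ∧ μ = ∏ k, (a k).1 ∧ u = ∑ k, (a k).2

end numbers

section modules

variable {Ω : Type} [Field Ω] {H : Type} [AddCommGroup H] [Module Ω H]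

/-- The element `x` is a generalized Tate class, over some finite extension of the field with `q`
elements, in the cohomology `H` of weight `u` with the Frobenius `F`: for some `s > 0` a power of
`F ^ (2 s) - q ^ (u s)` is zero at `x`. If `u = 2 j` then this says that the Frobenius of the extension of
degree `2 s` is unipotent on the span of `x` in `H (j)`. -/
def IsGenTate (q : ℕ) (u : ℤ) (F : End Ω H) (x : H) : Prop :=
  ∃ s r : ℕ, 0 < s ∧ ((F ^ (2 * s) - ((q : Ω) ^ (u * s)) • (1 : End Ω H)) ^ r) x = 0

end modules

end Pool.Agent.P8H27.UC
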