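import Pool.Agent.P8H27.UC.Sum

/-!
# Multiplicative relations between uncorrelated Weil numbers
-/

set_option autoImplicit false
set_option linter.unusedSectionVars false
set_option linter.unusedVariables false

namespace Pool.Agent.P8H27.UC

open Polynomial Module Pool.Agent.P8H27.RF Pool.Agent.H485R3 Pool.Agent.H485R3.Exact

noncomputable section

variable {p m : ℕ} [hp : Fact p.Prime]

section field

variable {E : Type} [Field E] [NumberField E] [IsGalois ℚ E] (jp : E →+* PadicAlgCl p)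

/-- The logarithm of a product. -/
theorem log_prod' {K : Type} [Fintype K] {a : K → E} (ha : ∀ k, a k ≠ 0) (u : K → ℤ)
    (g : E ≃ₐ[ℚ] E) :
    2 * Real.log ‖jp (g (∏ k, a k))‖ + ((∑ k, u k : ℤ) : ℝ) * (m * Real.log p) =
      - ∑ k, wtb jp m (u k) g (a k) := by
  have h2 : Real.log ‖jp (g (∏ k, a k))‖ = ∑ k, Real.log ‖jp (g (a k))‖ := by
    rw [map_prod, map_prod, norm_prod, Real.log_prod]
    exact fun k _ => (norm_pos' jp (ha k) g).ne'
  unfold wtb
  rw [h2, ← Finset.sum_neg_distrib, Finset.mul_sum]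
  simp only [neg_neg]
  rw [Finset.sum_add_distrib, Int.cast_sum, Finset.sum_mul]

/-- Relations give relations of the weights. -/
theorem sum_of_rel3 {K K' : Type} [Fintype K] [Fintype K'] {a : K → E} {b : K' → E}
    (ha : ∀ k, a k ≠ 0) (hb : ∀ k, b k ≠ 0) {u : K → ℤ} {w : K' → ℤ} {s : ℕ} (hs : 0 < s)
    (hrel : ((∏ k, a k) * ∏ k, b k) ^ (2 * s) =
      ((p ^ m : ℕ) : E) ^ ((∑ k, u k + ∑ k, w k) * (s : ℤ))) (g : E ≃ₐ[ℚ] E) :
    ∑ k, wtb jp m (u k) g (a k) + ∑ k, wtb jp m (w k) g (b k) = 0 := by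
  have h1 := log_prod' (m := m) jp ha u g
  have h1' := log_prod' (m := m) jp hb w g
  have hP0 : ∏ k, a k ≠ 0 := Finset.prod_ne_zero_iff.2 fun k _ => ha k
  have hP0' : ∏ k, b k ≠ 0 := Finset.prod_ne_zero_iff.2 fun k _ => hb k
  have h2 := congrArg (fun x => Real.log ‖jp (g x)‖) hrel
  simp only [map_mul, map_pow, norm_mul, norm_pow, map_zpow₀, norm_zpow, map_natCast] at h2
  rw [Real.log_pow, Real.log_mul (norm_pos' jp hP0 g).ne' (norm_pos' jp hP0' g).ne',
    Real.log_zpow, log_norm_q] at h2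
  have hs' : (s : ℝ) ≠ 0 := by exact_mod_cast hs.ne'
  push_cast at h2 h1 h1'
  have h4 : (s : ℝ) * (∑ k, wtb jp m (u k) g (a k) + ∑ k, wtb jp m (w k) g (b k)) = 0 := by
    linear_combination (s : ℝ) * h1 + (s : ℝ) * h1' - h2
  exact (mul_eq_zero.1 h4).resolve_left hs'

/-- **The orthogonality argument.** -/
theorem sum_zero {K K' : Type} [Fintype K] [Fintype K'] {f : K → (E ≃ₐ[ℚ] E) → ℝ}
    {h : K' → (E ≃ₐ[ℚ] E) → ℝ} (hort : ∀ k l, ∑ g, f k g * h l g = 0)
    (hsum : ∀ g, ∑ k, f k g + ∑ l, h l g = 0) (g : E ≃ₐ[ℚ] E) : ∑ k, f k g = 0 := by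
  have h1 : ∑ g, (∑ k, f k g) * (∑ l, h l g) = 0 := by
    rw [Finset.sum_congr rfl fun g _ => Finset.sum_mul_sum Finset.univ Finset.univ
      (fun k => f k g) (fun l => h l g), Finset.sum_comm]
    refine Finset.sum_eq_zero fun k _ => ?_
    rw [Finset.sum_comm]
    exact Finset.sum_eq_zero fun l _ => hort k l
  have h2 : ∑ g, (∑ k, f k g) ^ 2 = 0 := by
    have h3 : ∀ g, (∑ k, f k g) ^ 2 = - ((∑ k, f k g) * (∑ l, h l g)) := by
      intro g
      have h4 := hsum g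
      have h5 : ∑ l, h l g = - ∑ k, f k g := by linarith
      rw [h5]
      ring
    rw [Finset.sum_congr rfl fun g _ => h3 g, Finset.sum_neg_distrib, h1, neg_zero]
  have h3 := (Finset.sum_eq_zero_iff_of_nonneg fun g _ => sq_nonneg _).1 h2 g (Finset.mem_univ g)
  exact pow_eq_zero_iff two_ne_zero |>.1 h3

/-- A Weil number, in a number field. -/
structure IsWeilIn (p m : ℕ) (u : ℤ) (a : E) : Prop where
  int : ∃ n : ℕ, IsIntegral ℤ ((p : E) ^ n * a)
  int_inv : ∃ n : ℕ, IsIntegral ℤ ((p : E) ^ n * a⁻¹)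
  abs : ∀ e : E →+* ℂ, ‖e a‖ ^ 2 = ((p : ℝ) ^ m) ^ u

omit [IsGalois ℚ E] in
theorem IsWeilIn.ne_zero {u : ℤ} {a : E} (h : IsWeilIn p m u a) : a ≠ 0 := by
  rintro rfl
  obtain ⟨e⟩ := (inferInstance : Nonempty (E →+* ℂ))
  have h1 := h.abs e
  rw [map_zero, norm_zero] at h1
  have h2 : (0 : ℝ) < ((p : ℝ) ^ m) ^ u := by
    have : (0 : ℝ) < p := by exact_mod_cast hp.out.pos
    positivity
  rw [← h1] at h2
  norm_num at h2

omit [IsGalois ℚ E] in
theorem IsWeilIn.norm_one {u : ℤ} {a : E} (h : IsWeilIn p m u a) (l : ℕ) [Fact l.Prime]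
    (hl : l ≠ p) (e : E →+* PadicAlgCl l) : ‖e a‖ = 1 := by
  have hp1 : ‖((p : ℕ) : PadicAlgCl l)‖ = 1 := by
    have h4 : (p : PadicAlgCl l) = algebraMap ℚ_[l] (PadicAlgCl l) (p : ℚ_[l]) := by simp
    rw [h4, PadicAlgCl.norm_extends,
      Padic.norm_natCast_eq_one_iff.2 ((Nat.coprime_primes (Fact.out : l.Prime) hp.out).2 hl)]
  have key : ∀ x : E, (∃ n : ℕ, IsIntegral ℤ ((p : E) ^ n * x)) → ‖e x‖ ≤ 1 := by
    rintro x ⟨n, hn⟩
    have h1 : ‖e ((p : E) ^ n * x)‖ ≤ 1 := norm_le_one_of_isIntegral l _ (hn.map e.toIntAlgHom)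
    rw [map_mul, map_pow, map_natCast, norm_mul, norm_pow, hp1, one_pow, one_mul] at h1
    exact h1
  have h1 := key a h.int
  have h2 := key a⁻¹ h.int_inv
  have h0 : 0 < ‖e a‖ := norm_pos_iff.2 ((map_ne_zero e).2 h.ne_zero)
  rw [map_inv₀, norm_inv] at h2
  have h3 : 1 ≤ ‖e a‖ := by
    by_contra hcon
    push Not at hcon
    have h4 := one_lt_inv₀ h0 |>.2 hcon
    linarith
  exact le_antisymm h1 h3

/-- Balanced families of Weil numbers. -/
theorem rel_of_sum' {K : Type} [Fintype K] {a : K → E} {u : K → ℤ}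
    (ha : ∀ k, IsWeilIn p m (u k) (a k))
    (hsum : ∀ g : E ≃ₐ[ℚ] E, ∑ k, wtb jp m (u k) g (a k) = 0) :
    ∃ s : ℕ, 0 < s ∧ (∏ k, a k) ^ (2 * s) = ((p ^ m : ℕ) : E) ^ ((∑ k, u k) * (s : ℤ)) := by
  have hp0 : (0 : ℝ) < p := by exact_mod_cast hp.out.pos
  have ha0 : ∀ k, a k ≠ 0 := fun k => (ha k).ne_zero
  have hP0 : ∏ k, a k ≠ 0 := Finset.prod_ne_zero_iff.2 fun k _ => ha0 k
  have hq0 : ((p ^ m : ℕ) : E) ≠ 0 := q_ne E
  obtain ⟨s, hs, hz⟩ : ∃ s : ℕ, 0 < s ∧
      ((∏ k, a k) ^ 2 / ((p ^ m : ℕ) : E) ^ (∑ k, u k)) ^ s = 1 := by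
    apply root_of_unity
    · intro l _ e
      rw [map_div₀, map_pow, map_zpow₀, norm_div, norm_pow, norm_zpow, map_natCast]
      by_cases hl : l = p
      · subst hl
        let ealg : E →ₐ[ℚ] PadicAlgCl l := (jp : E →+* PadicAlgCl l).toRatAlgHom
        obtain ⟨g, hg⟩ := Pool.Agent.H485R3.exists_gal ealg e
        have hg' : ∀ x, e x = jp (g x) := hg
        rw [hg']
        have h1 := log_prod' (m := m) jp ha0 u g
        rw [hsum g, neg_zero] at h1
        have h2 : 0 < ‖jp (g (∏ k, a k))‖ := norm_pos' jp hP0 g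
        have h3 : Real.log ‖((l ^ m : ℕ) : PadicAlgCl l)‖ = - (m * Real.log l) := log_norm_q
        have h4 : 0 < ‖((l ^ m : ℕ) : PadicAlgCl l)‖ := norm_pos_iff.2 (q_ne _)
        have h5 : Real.log (‖jp (g (∏ k, a k))‖ ^ 2) =
            Real.log (‖((l ^ m : ℕ) : PadicAlgCl l)‖ ^ (∑ k, u k)) := by
          rw [Real.log_pow, Real.log_zpow, h3]
          push_cast
          push_cast at h1
          linarith
        rw [Real.log_injOn_pos (Set.mem_Ioi.2 (pow_pos h2 2))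
          (Set.mem_Ioi.2 (zpow_pos h4 (∑ k, u k))) h5, div_self (zpow_pos h4 _).ne']
      · have h1 : ‖e (∏ k, a k)‖ = 1 := by
          rw [map_prod, norm_prod]
          exact Finset.prod_eq_one fun k _ => (ha k).norm_one l hl (e : E →+* PadicAlgCl l)
        rw [h1, norm_padic_ne l hl, one_pow, one_zpow, div_one]
    · intro e
      have h1 : ‖e (∏ k, a k)‖ ^ 2 = (((p ^ m : ℕ) : ℝ)) ^ (∑ k, u k) := by
        have hw : ∀ k, ‖e (a k)‖ ^ 2 = ((p : ℝ) ^ m) ^ (u k) := fun k =>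
          (ha k).abs (e : E →+* ℂ)
        have hq1 : (0 : ℝ) < (p : ℝ) ^ m := pow_pos hp0 m
        rw [map_prod, norm_prod, ← Finset.prod_pow, Finset.prod_congr rfl (fun k _ => hw k)]
        push_cast
        generalize (p : ℝ) ^ m = x at hq1
        have h5 : ∀ T : Finset K, ∏ k ∈ T, x ^ u k = x ^ ∑ k ∈ T, u k := by
          classical
          intro T
          induction T using Finset.induction_on with
          | empty => simp
          | insert a T ha ih => rw [Finset.prod_insert ha, Finset.sum_insert ha, ih, zpow_add₀ hq1.ne']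
        exact h5 Finset.univ
      rw [map_div₀, map_pow, map_zpow₀, norm_div, norm_pow, norm_zpow, map_natCast,
        Complex.norm_natCast, h1]
      refine div_self (zpow_pos ?_ _).ne'
      exact_mod_cast pow_pos hp.out.pos m
  refine ⟨s, hs, ?_⟩
  rw [div_pow, div_eq_one_iff_eq (pow_ne_zero _ (zpow_ne_zero _ hq0))] at hz
  rw [pow_mul, hz, zpow_mul, zpow_natCast]

end field

section numbers

variable {Ω : Type} [Field Ω] [CharZero Ω] [IsAlgClosed Ω]

omit [CharZero Ω] [IsAlgClosed Ω] in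
theorem isIntegral_of_emb {E : Type} [Field E] (j : E →+* Ω) {x : E}
    (h : IsIntegral ℤ (j x)) : IsIntegral ℤ x :=
  (isIntegral_algHom_iff j.toIntAlgHom j.injective).1 h

omit [IsAlgClosed Ω] in
theorem IsWeilNumber.isIntegral {u : ℤ} {α : Ω} (h : IsWeilNumber p m u α) :
    IsIntegral ℚ α := by
  obtain ⟨n, hn⟩ := h.int
  have hp0 : ((p : ℕ) : Ω) ≠ 0 := by exact_mod_cast hp.out.ne_zero
  have h1 : IsIntegral ℚ ((p : Ω) ^ n * α) := hn.tower_top
  have h2 : IsIntegral ℚ (((p : Ω) ^ n)⁻¹) := by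
    have h3 : ((p : Ω) ^ n)⁻¹ = algebraMap ℚ Ω (((p : ℚ) ^ n)⁻¹) := by
      rw [map_inv₀, map_pow, map_natCast]
    rw [h3]
    exact isIntegral_algebraMap
  have h3 := h2.mul h1
  rwa [← mul_assoc, inv_mul_cancel₀ (pow_ne_zero _ hp0), one_mul] at h3

theorem IsWeilNumber.weilIn {u : ℤ} {E : Type} [Field E] [NumberField E] {j : E →+* Ω} {a : E}
    (h : IsWeilNumber p m u (j a)) : IsWeilIn p m u a where
  int := by
    obtain ⟨n, hn⟩ := h.int
    refine ⟨n, isIntegral_of_emb j ?_⟩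
    rwa [map_mul, map_pow, map_natCast]
  int_inv := by
    obtain ⟨n, hn⟩ := h.int_inv
    refine ⟨n, isIntegral_of_emb j ?_⟩
    rwa [map_mul, map_pow, map_natCast, map_inv₀]
  abs := by
    intro e
    apply h.abs
    have h1 : minpoly ℚ (j a) = minpoly ℚ a :=
      minpoly.algHom_eq (j.toRatAlgHom) j.injective a
    rw [h1]
    have h3 := Polynomial.aeval_algHom_apply (e.toRatAlgHom) a (minpoly ℚ a)
    rw [minpoly.aeval, map_zero] at h3
    exact h3

/-- A Galois number field with given elements. -/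
theorem exists_field' {K : Type} [Fintype K] (c : K → Ω) (hc : ∀ k, IsIntegral ℚ (c k)) :
    ∃ (E : Type) (_ : Field E) (_ : NumberField E) (_ : IsGalois ℚ E) (j : E →+* Ω) (a : K → E),
      ∀ k, j (a k) = c k := by
  obtain ⟨E, i1, i2, i3, _, _, _, j, x, hx, -⟩ := exists_field (L := ℚ) (Ω := Ω)
    (algebraMap ℚ Ω) c hc
  exact ⟨E, i1, i2, i3, j, x, hx⟩

/-- **Relations between uncorrelated Weil numbers.** -/
theorem rel_of_uncorrelated (hm : 0 < m) {K K' : Type} [Finite K] [Finite K'] [Fintype K]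
    [Fintype K'] {c : K → Ω} {d : K' → Ω} {u : K → ℤ} {w : K' → ℤ}
    (hc : ∀ k, IsWeilNumber p m (u k) (c k)) (hd : ∀ k, IsWeilNumber p m (w k) (d k))
    (hunc : ∀ k l, Uncorrelated p m (u k) (w l) (c k) (d l)) {s : ℕ} (hs : 0 < s)
    (hrel : ((∏ k, c k) * ∏ k, d k) ^ (2 * s) =
      ((p ^ m : ℕ) : Ω) ^ ((∑ k, u k + ∑ k, w k) * (s : ℤ))) :
    (∃ t : ℕ, 0 < t ∧ (∏ k, c k) ^ (2 * t) = ((p ^ m : ℕ) : Ω) ^ ((∑ k, u k) * (t : ℤ))) ∧
    ∃ t : ℕ, 0 < t ∧ (∏ k, d k) ^ (2 * t) = ((p ^ m : ℕ) : Ω) ^ ((∑ k, w k) * (t : ℤ)) := by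
  classical
  obtain ⟨E, _, _, _, j, x, hx⟩ := exists_field' (K := K ⊕ K') (Sum.elim c d) (by
      rintro (k | k)
      · exact (hc k).isIntegral
      · exact (hd k).isIntegral)
  let a : K → E := fun k => x (Sum.inl k)
  let b : K' → E := fun k => x (Sum.inr k)
  have ha : ∀ k, j (a k) = c k := fun k => hx (Sum.inl k)
  have hb : ∀ k, j (b k) = d k := fun k => hx (Sum.inr k)
  let jp : E →+* PadicAlgCl p := ((IsAlgClosed.lift : E →ₐ[ℚ] PadicAlgCl p) : E →+* PadicAlgCl p)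
  have haw : ∀ k, IsWeilIn p m (u k) (a k) := fun k =>
    IsWeilNumber.weilIn (Ω := Ω) (j := j) (by rw [ha]; exact hc k)
  have hbw : ∀ k, IsWeilIn p m (w k) (b k) := fun k =>
    IsWeilNumber.weilIn (Ω := Ω) (j := j) (by rw [hb]; exact hd k)
  have hrelE : ((∏ k, a k) * ∏ k, b k) ^ (2 * s) =
      ((p ^ m : ℕ) : E) ^ ((∑ k, u k + ∑ k, w k) * (s : ℤ)) := by
    apply j.injective
    rw [map_pow, map_mul, map_prod, map_prod, map_zpow₀, map_natCast, ← hrel]
    congr 2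
    · exact Finset.prod_congr rfl fun k _ => ha k
    · exact Finset.prod_congr rfl fun k _ => hb k
  have hsum := sum_of_rel3 (m := m) jp (fun k => (haw k).ne_zero) (fun k => (hbw k).ne_zero) hs
    hrelE
  have hort : ∀ k l, ∑ g : E ≃ₐ[ℚ] E, wtb jp m (u k) g (a k) * wtb jp m (w l) g (b l) = 0 := by
    intro k l
    apply ortho_of_uncorrelated j jp hm
    rw [ha, hb]
    exact hunc k l
  have h1 := sum_zero hort hsum
  have h2 : ∀ g : E ≃ₐ[ℚ] E, ∑ k, wtb jp m (w k) g (b k) = 0 := by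
    intro g
    have h3 := hsum g
    rw [h1 g, zero_add] at h3
    exact h3
  obtain ⟨t, ht, h3⟩ := rel_of_sum' jp haw h1
  obtain ⟨t', ht', h4⟩ := rel_of_sum' jp hbw h2
  refine ⟨⟨t, ht, ?_⟩, ⟨t', ht', ?_⟩⟩
  · have h5 := congrArg j h3
    rw [map_pow, map_prod, map_zpow₀, map_natCast] at h5
    rw [← h5]
    congr 1
    exact Finset.prod_congr rfl fun k _ => (ha k).symm
  · have h5 := congrArg j h4
    rw [map_pow, map_prod, map_zpow₀, map_natCast] at h5
    rw [← h5]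
    congr 1
    exact Finset.prod_congr rfl fun k _ => (hb k).symm

end numbers

end

end Pool.Agent.P8H27.UC
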