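import Pool.Agent.P8H27.UC.Defs
import Pool.Agent.P8H27.RF.SepMain

/-!
# Sums over the Galois group and over the embeddings of the field of two numbers
-/

set_option autoImplicit false
set_option linter.unusedSectionVars false
set_option linter.unusedVariables false

namespace Pool.Agent.P8H27.UC

open Polynomial Module Pool.Agent.P8H27.RF

noncomputable section

variable {p m : ℕ} [hp : Fact p.Prime] {Ω : Type} [Field Ω] [CharZero Ω]
  {E : Type} [Field E] [NumberField E] [IsGalois ℚ E] (j : E →+* Ω) (jp : E →+* PadicAlgCl p)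

/-- The field of two numbers in `E`. -/
theorem exists_emb (a b : E) : ∃ i : pairField (j a) (j b) →+* E,
    i (fstElt (j a) (j b)) = a ∧ i (sndElt (j a) (j b)) = b ∧
      ∀ x, j (i x) = (x : Ω) := by
  have hle : pairField (j a) (j b) ≤ (j.toRatAlgHom).fieldRange := by
    rw [IntermediateField.adjoin_le_iff]
    rintro x (rfl | rfl)
    · exact ⟨a, rfl⟩
    · exact ⟨b, rfl⟩
  have hx : ∀ x : pairField (j a) (j b), ∃ y : E, j y = (x : Ω) := by
    intro x
    obtain ⟨y, hy⟩ := hle x.2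
    exact ⟨y, hy⟩
  choose f hf using hx
  let i : pairField (j a) (j b) →+* E :=
    { toFun := f
      map_one' := j.injective (by rw [hf, map_one]; rfl)
      map_zero' := j.injective (by rw [hf, map_zero]; rfl)
      map_add' := fun x y => j.injective (by rw [map_add, hf, hf, hf]; rfl)
      map_mul' := fun x y => j.injective (by rw [map_mul, hf, hf, hf]; rfl) }
  exact ⟨i, j.injective (hf _), j.injective (hf _), hf⟩

/-- **Sums over the Galois group.** -/
theorem sum_galois (a b : E) : ∃ N : ℕ, 0 < N ∧ ∀ F : PadicAlgCl p → PadicAlgCl p → ℝ,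
    ∑ g : E ≃ₐ[ℚ] E, F (jp (g a)) (jp (g b)) =
      N * ∑ᶠ τ : pairField (j a) (j b) →+* PadicAlgCl p,
        F (τ (fstElt (j a) (j b))) (τ (sndElt (j a) (j b))) := by
  classical
  obtain ⟨i, hia, hib, hi⟩ := exists_emb j a b
  let Θ : (E ≃ₐ[ℚ] E) → (pairField (j a) (j b) →+* PadicAlgCl p) := fun g =>
    (jp.comp (g : E →+* E)).comp i
  have hΘ : ∀ g x, Θ g x = jp (g (i x)) := fun g x => rfl
  have hsurj : Function.Surjective Θ := by
    intro τ
    let _ : Algebra (pairField (j a) (j b)) E := i.toAlgebra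
    let _ : Algebra (pairField (j a) (j b)) (PadicAlgCl p) := τ.toAlgebra
    have htow : IsScalarTower ℚ (pairField (j a) (j b)) E :=
      IsScalarTower.of_algebraMap_eq fun x => by
        rw [eq_ratCast, eq_ratCast, map_ratCast]
    have halg : Algebra.IsAlgebraic (pairField (j a) (j b)) E :=
      Algebra.IsAlgebraic.tower_top (K := ℚ) (pairField (j a) (j b))
    let ψ : E →ₐ[pairField (j a) (j b)] PadicAlgCl p := IsAlgClosed.lift
    obtain ⟨g, hg⟩ := Pool.Agent.H485R3.exists_gal (jp.toRatAlgHom) (ψ : E →+* PadicAlgCl p).toRatAlgHom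
    refine ⟨g, RingHom.ext fun x => ?_⟩
    rw [hΘ]
    have h1 := hg (i x)
    have h2 : ψ (i x) = τ x := ψ.commutes x
    exact h1.symm.trans h2
  have hfin : Finite (pairField (j a) (j b) →+* PadicAlgCl p) := Finite.of_surjective Θ hsurj
  have := Fintype.ofFinite (pairField (j a) (j b) →+* PadicAlgCl p)
  let Fb : (pairField (j a) (j b) →+* PadicAlgCl p) → Finset (E ≃ₐ[ℚ] E) := fun τ =>
    Finset.univ.filter fun g => Θ g = τ
  have hF : ∀ τ, (Fb τ).card = (Fb (Θ 1)).card := by
    intro τ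
    obtain ⟨g₀, hg₀⟩ := hsurj τ
    refine (Finset.card_bij (fun g _ => g₀ * g) ?_ ?_ ?_).symm
    · intro g hg
      have h1 : Θ g = Θ 1 := (Finset.mem_filter.1 hg).2
      refine Finset.mem_filter.2 ⟨Finset.mem_univ _, ?_⟩
      rw [← hg₀]
      ext x
      have h2 : jp (g (i x)) = jp (i x) := RingHom.congr_fun h1 x
      rw [hΘ, hΘ, AlgEquiv.mul_apply, jp.injective h2]
    · intro g _ g' _ h
      exact mul_left_cancel h
    · intro g hg
      have h1 : Θ g = τ := (Finset.mem_filter.1 hg).2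
      refine ⟨g₀⁻¹ * g, Finset.mem_filter.2 ⟨Finset.mem_univ _, ?_⟩, mul_inv_cancel_left _ _⟩
      ext x
      have h2 : jp (g (i x)) = jp (g₀ (i x)) := RingHom.congr_fun (h1.trans hg₀.symm) x
      have h3 : g (i x) = g₀ (i x) := jp.injective h2
      rw [hΘ, hΘ, AlgEquiv.mul_apply, h3, ← AlgEquiv.mul_apply, inv_mul_cancel]
  refine ⟨(Fb (Θ 1)).card, ?_, fun F => ?_⟩
  · exact Finset.card_pos.2 ⟨1, Finset.mem_filter.2 ⟨Finset.mem_univ _, rfl⟩⟩
  · rw [finsum_eq_sum_of_fintype, Finset.mul_sum,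
      ← Finset.sum_fiberwise (Finset.univ : Finset (E ≃ₐ[ℚ] E)) Θ]
    refine Finset.sum_congr rfl fun τ _ => ?_
    rw [Finset.sum_congr rfl (g := fun _ => F (τ (fstElt (j a) (j b))) (τ (sndElt (j a) (j b))))
      (fun g hg => by
        have h1 : Θ g = τ := (Finset.mem_filter.1 hg).2
        rw [← h1, hΘ, hΘ, hia, hib]), Finset.sum_const, nsmul_eq_mul]
    congr 2
    exact hF τ

/-- The weight and the valuation. -/
theorem wtb_val (hm : 0 < m) (w : ℤ) (g : E ≃ₐ[ℚ] E) (r : E) :
    wtb jp m w g r = cst p m * (2 * val p m (jp (g r)) - w) := by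
  have h1 := (cst_pos (p := p) hm).ne'
  unfold wtb val Real.logb
  rw [Real.log_pow]
  change - (2 * _ + w * cst p m) = cst p m * (2 * (- (_ / cst p m)) - w)
  field_simp
  ring

/-- Uncorrelated numbers are orthogonal. -/
theorem ortho_of_uncorrelated (hm : 0 < m) {u w : ℤ} {a b : E}
    (h : Uncorrelated p m u w (j a) (j b)) :
    ∑ g : E ≃ₐ[ℚ] E, wtb jp m u g a * wtb jp m w g b = 0 := by
  obtain ⟨N, _, hN⟩ := sum_galois j jp a b
  have h1 : ∑ g : E ≃ₐ[ℚ] E, wtb jp m u g a * wtb jp m w g b =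
      cst p m ^ 2 * ∑ g : E ≃ₐ[ℚ] E,
        (fun x y => (2 * val p m x - u) * (2 * val p m y - w)) (jp (g a)) (jp (g b)) := by
    rw [Finset.mul_sum]
    refine Finset.sum_congr rfl fun g _ => ?_
    rw [wtb_val jp hm, wtb_val jp hm]
    ring
  rw [h1, hN (fun x y => (2 * val p m x - u) * (2 * val p m y - w))]
  have h2 : ∑ᶠ τ : pairField (j a) (j b) →+* PadicAlgCl p,
      (fun x y => (2 * val p m x - u) * (2 * val p m y - w))
        (τ (fstElt (j a) (j b))) (τ (sndElt (j a) (j b))) = 0 := h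
  rw [h2, mul_zero, mul_zero]

end

end Pool.Agent.P8H27.UC
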